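import Pool.Agent.Helper61.QL.GoalsV
import Pool.Agent.Helper61.QG.GoalsV
import Pool.Agent.Helper35.QG.CVX

/-!
# Project QL, packet CVL: the classes of metrics, from the matrix level to operators
-/

set_option autoImplicit false

open Set ComplexConjugate

namespace Pool.Agent.Helper23.QL

open Pool.Agent.Helper61 Pool.Agent.Helper61.QL Pool.Agent.Helper35.QG

/-- CVL. -/
theorem goalCVL (h : QG.G_CVI) : G_CVL := by
  intro gM g' hg
  refine ⟨?_, ?_, ?_⟩
  · rintro ⟨H, K, hH, hK, hHl, hKl, hid⟩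
    obtain ⟨H', hH1, hH2⟩ := mk_clm2 H (fun p u => (hHl p u).1) (fun p u => (hHl p u).2) hH
    obtain ⟨K', hK1, hK2⟩ := mk_clm2 K (fun p u => (hKl p u).1) (fun p u => (hKl p u).2) hK
    refine ⟨H', K', hH2, hK2, ?_⟩
    intro P hP u hu u' hu'
    rw [hg, hH1, hK1]
    exact hid P hP u hu u' hu'
  · rintro ⟨φ, H, K, μ, hφ, hφ0, hH, hK, hμ, hHl, hKl, hμl, hid, hpol, hsp⟩
    obtain ⟨H', hH1, hH2⟩ := mk_clm2 H (fun p u => (hHl p u).1) (fun p u => (hHl p u).2) hH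
    obtain ⟨K', hK1, hK2⟩ := mk_clm2 K (fun p u => (hKl p u).1) (fun p u => (hKl p u).2) hK
    obtain ⟨μ', hμ1, hμ2⟩ := mk_clm μ hμl hμ
    have hkap : ∀ P u, QL.kapL μ' P u = QM.kapL μ P u := by
      intro P u
      unfold QL.kapL QM.kapL
      rw [hμ1]
    refine ⟨φ, H', K', μ', ?_⟩
    constructor
    · exact hφ
    · exact hφ0
    · exact hH2
    · exact hK2
    · exact hμ2
    · intro P hP u hu u' hu'
      rw [hg, hH1, hK1, hkap, hkap]
      exact hid P hP u hu u' hu'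
    · intro P hP
      rw [hK1]
      exact hpol P hP
    · intro P hP P' hP' ht
      rw [hK1, hK1]
      exact hsp P hP P' hP' ht
  · rintro ⟨Λ, hΛ, hper, hzero, hf⟩
    refine ⟨Λ, ⟨hΛ, hper, hzero⟩, ?_⟩
    rintro x ⟨h1, h2, h3⟩
    have h4 := hf x h1 h2 h3
    have h5 := h QM.R4 QM.R4 (ContinuousLinearEquiv.refl ℝ QM.R4)
      (QM.gB gM (fun y => QM.pol (y.1, y.2.1, y.2.2.1, y.2.2.2 + Λ (y.1, y.2.2.1))))
      (QG.gB g' (polL Λ)) (by
        intro z a b
        exact (hg _ _ _).symm) x (1, 0, 0, 0) (0, 1, 0, 0) 0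
    exact h5.1 h4

end Pool.Agent.Helper23.QL
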